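import Pool.Agent.Y154.R9.MeasA

/-!
MEAS: integers with logarithm in a Bohr set, main part
-/

set_option autoImplicit false

namespace Pool.Agent.Y154.R9

open Finset Pool.Agent.Y766

theorem meas_core (k : ℕ) (D : ℝ) (Δ : Fin k → ℝ) (L b : Fin k → ℕ) (hD : 1 ≤ D)
    (hL : ∀ i, 1 ≤ L i)
    (hsep : ∀ j : Fin k → ℤ, (∀ i, |j i| < L i) → j ≠ 0 →
      1 ≤ |∑ i, (j i : ℝ) * Δ i| ∧ |∑ i, (j i : ℝ) * Δ i| ≤ D)
    (X : ℕ) (hX : 1 ≤ X) (A : Finset ℕ)
    (hA : ∀ n ∈ A, X < n ∧ n ≤ 2 * X ∧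
      ∀ i, ∃ z : ℤ, |Δ i * Real.log n - 2 * Real.pi * z| ≤ 2 * Real.pi * (2 : ℝ) ^ (b i) / L i) :
    (A.card : ℝ) ≤ 60 * 120 ^ k * (2 : ℝ) ^ (∑ i, b i) * (1 + Real.log D) * (X + D) /
      ∏ i, (L i : ℝ) := by
  classical
  have hD0 : 0 < D := by linarith
  have hlogD : 0 ≤ Real.log D := Real.log_nonneg hD
  have hL0 : ∀ i, (0 : ℝ) < L i := fun i => by exact_mod_cast hL i
  have hPL : 0 < ∏ i, (L i : ℝ) := prod_pos fun i _ => hL0 i
  have hX0 : (1 : ℝ) ≤ X := by exact_mod_cast hX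
  rcases A.eq_empty_or_nonempty with he | ⟨n0, hn0A⟩
  · rw [he]
    simp only [card_empty, Nat.cast_zero]
    positivity
  obtain ⟨V, hV⟩ : ∃ V : Fin k → ℕ, V = fun i => 1 + L i / (30 * 2 ^ b i) := ⟨_, rfl⟩
  have hVi : ∀ i, V i = 1 + L i / (30 * 2 ^ b i) := fun i => by rw [hV]
  have hV1 : ∀ i, 1 ≤ V i := fun i => by rw [hVi]; exact Nat.le_add_right 1 _
  have hpow : ∀ i, 30 ≤ 30 * 2 ^ b i := fun i => by
    have := Nat.one_le_two_pow (n := b i)
    omega
  have hVL : ∀ i, V i ≤ L i := fun i => by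
    have h1 : L i / (30 * 2 ^ b i) ≤ L i / 30 := Nat.div_le_div_left (hpow i) (by norm_num)
    have h2 := hL i
    rw [hVi]
    omega
  have hsepV : ∀ x ∈ Fintype.piFinset (fun i => range (V i)),
      ∀ y ∈ Fintype.piFinset (fun i => range (V i)), x ≠ y →
      1 ≤ |∑ i, (y i : ℝ) * Δ i - ∑ i, (x i : ℝ) * Δ i| ∧
        |∑ i, (y i : ℝ) * Δ i - ∑ i, (x i : ℝ) * Δ i| ≤ D := by
    intro x hx y hy hxy
    rw [Fintype.mem_piFinset] at hx hy
    have h1 := hsep (fun i => (y i : ℤ) - (x i : ℤ)) (fun i => by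
      have hx1 := hx i
      have hy1 := hy i
      rw [mem_range] at hx1 hy1
      have := hVL i
      rw [abs_lt]
      constructor <;> omega) (fun h0 => hxy (by
        funext i
        have := congrFun h0 i
        simp only [Pi.zero_apply] at this
        omega))
    have e : ∑ i, (((y i : ℤ) - (x i : ℤ) : ℤ) : ℝ) * Δ i =
        ∑ i, (y i : ℝ) * Δ i - ∑ i, (x i : ℝ) * Δ i := by
      rw [← sum_sub_distrib]
      refine sum_congr rfl fun i _ => ?_
      push_cast
      ring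
    rw [e] at h1
    exact h1
  have hΔ : ∀ i, V i ≠ 1 → |Δ i| / D ≤ 2 / L i := by
    intro i hi
    have hLi : 30 ≤ L i := by
      by_contra hcon
      apply hi
      have : L i / (30 * 2 ^ b i) = 0 := Nat.div_eq_of_lt (by have := hpow i; omega)
      rw [hVi, this]
    have h1 := (hsep (fun j => if j = i then (L i : ℤ) - 1 else 0) (fun j => by
      show |if j = i then (L i : ℤ) - 1 else 0| < L j
      split_ifs with h
      · rw [h, abs_lt]
        constructor <;> omega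
      · rw [abs_zero]
        have := hL j
        omega) (fun h0 => by
        have := congrFun h0 i
        simp only [if_true, Pi.zero_apply] at this
        omega)).2
    have e : ∑ j, ((if j = i then (L i : ℤ) - 1 else 0 : ℤ) : ℝ) * Δ j = ((L i : ℝ) - 1) * Δ i := by
      rw [sum_eq_single i]
      · simp
      · intro j _ hj
        simp [hj]
      · intro h
        exact absurd (mem_univ i) h
    rw [e, abs_mul] at h1
    have hLr : (30 : ℝ) ≤ L i := by exact_mod_cast hLi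
    rw [abs_of_nonneg (by linarith : (0 : ℝ) ≤ (L i : ℝ) - 1)] at h1
    rw [div_le_div_iff₀ hD0 (hL0 i)]
    have h2 : (L i : ℝ) ≤ 2 * ((L i : ℝ) - 1) := by linarith
    calc |Δ i| * (L i : ℝ) ≤ |Δ i| * (2 * ((L i : ℝ) - 1)) :=
          mul_le_mul_of_nonneg_left h2 (abs_nonneg _)
      _ = 2 * (((L i : ℝ) - 1) * |Δ i|) := by ring
      _ ≤ 2 * D := by linarith
  obtain ⟨δ, hδ⟩ : ∃ δ : Fin k → ℝ, δ = fun i => if V i = 1 then 2 else
    (4 * Real.pi * 2 ^ b i + 2) / L i := ⟨_, rfl⟩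
  have hδV : ∀ i, ((V i : ℝ) - 1) * δ i ≤ 1 / 2 := by
    intro i
    rw [hδ]
    show ((V i : ℝ) - 1) * (if V i = 1 then 2 else (4 * Real.pi * 2 ^ b i + 2) / L i) ≤ 1 / 2
    split_ifs with h
    · rw [h]
      norm_num
    · have h1 : (V i : ℝ) - 1 ≤ L i / (30 * 2 ^ b i) := by
        rw [hVi]
        have := Nat.cast_div_le (α := ℝ) (m := L i) (n := 30 * 2 ^ b i)
        push_cast at this ⊢
        linarith
      have hp := Real.pi_lt_d2
      have hp0 := Real.pi_pos
      have h2p : (1 : ℝ) ≤ 2 ^ b i := one_le_pow₀ (by norm_num)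
      calc ((V i : ℝ) - 1) * ((4 * Real.pi * 2 ^ b i + 2) / L i)
          ≤ (L i / (30 * 2 ^ b i)) * ((4 * Real.pi * 2 ^ b i + 2) / L i) :=
            mul_le_mul_of_nonneg_right h1 (by have := hL0 i; positivity)
        _ = (4 * Real.pi * 2 ^ b i + 2) / (30 * 2 ^ b i) := by
            have := (hL0 i).ne'
            field_simp
        _ ≤ 1 / 2 := by
            rw [div_le_div_iff₀ (by positivity) (by norm_num)]
            nlinarith
  obtain ⟨f, hf⟩ : ∃ f : ℕ → ℤ, f = fun n : ℕ => ⌊D * Real.log n⌋ - ⌊D * Real.log n0⌋ := ⟨_, rfl⟩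
  have hfn : ∀ n, f n = ⌊D * Real.log n⌋ - ⌊D * Real.log n0⌋ := fun n => by rw [hf]
  have hpos : ∀ n ∈ A, (0 : ℝ) < n := fun n hn => by
    have := (hA n hn).1
    have : 0 < n := by omega
    exact_mod_cast this
  have hlog : ∀ n ∈ A, |Real.log n - Real.log n0| ≤ 1 := by
    have key : ∀ m ∈ A, ∀ n ∈ A, Real.log m - Real.log n ≤ 1 := by
      intro m hm n hn
      have h1 := (hA m hm).2.1
      have h2 := (hA n hn).1
      have h3 : (m : ℝ) ≤ 2 * n := by
        have : m ≤ 2 * n := by omega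
        exact_mod_cast this
      have h4 := Real.log_le_log (hpos m hm) h3
      rw [Real.log_mul (by norm_num) (hpos n hn).ne'] at h4
      have := Real.log_two_lt_d9
      linarith
    intro n hn
    rw [abs_le]
    have h1 := key n hn n0 hn0A
    have h2 := key n0 hn0A n hn
    constructor <;> linarith
  have hfloor : ∀ n, |(f n : ℝ) - D * (Real.log n - Real.log n0)| ≤ 1 := by
    intro n
    rw [hfn]
    push_cast
    have h1 := Int.floor_le (D * Real.log n)
    have h2 := Int.lt_floor_add_one (D * Real.log n)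
    have h3 := Int.floor_le (D * Real.log n0)
    have h4 := Int.lt_floor_add_one (D * Real.log n0)
    rw [abs_le]
    constructor <;> linarith
  obtain ⟨M, hM⟩ : ∃ M : ℕ, M = ⌈D⌉₊ + 1 := ⟨_, rfl⟩
  have hM1 : D + 1 ≤ M := by
    rw [hM]
    push_cast
    have := Nat.le_ceil D
    linarith
  have hM2 : (M : ℝ) ≤ D + 2 := by
    rw [hM]
    push_cast
    have := Nat.ceil_lt_add_one hD0.le
    linarith
  obtain ⟨S, hS⟩ : ∃ S : Finset ℤ, S = A.image f := ⟨_, rfl⟩
  have hSM : S ⊆ Icc (-(M : ℤ)) M := by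
    intro s hs
    rw [hS, mem_image] at hs
    obtain ⟨n, hn, rfl⟩ := hs
    have h1 := hfloor n
    have h2 := hlog n hn
    rw [abs_le] at h1 h2
    have h3 : D * (Real.log n - Real.log n0) ≤ D * 1 := mul_le_mul_of_nonneg_left h2.2 hD0.le
    have h4 : D * (-1) ≤ D * (Real.log n - Real.log n0) := mul_le_mul_of_nonneg_left h2.1 hD0.le
    rw [mem_Icc]
    constructor
    · have : (-(M : ℝ)) ≤ (f n : ℝ) := by linarith
      exact_mod_cast this
    · have : (f n : ℝ) ≤ (M : ℝ) := by linarith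
      exact_mod_cast this
  have hSδ : ∀ a ∈ S, ∀ i, ‖Complex.exp (Complex.I * ((Δ i / D * a : ℝ) : ℂ)) - 1‖ ≤ δ i := by
    intro a ha i
    rw [hS, mem_image] at ha
    obtain ⟨n, hn, rfl⟩ := ha
    rw [hδ]
    show ‖Complex.exp (Complex.I * ((Δ i / D * (f n) : ℝ) : ℂ)) - 1‖ ≤
      if V i = 1 then 2 else (4 * Real.pi * 2 ^ b i + 2) / L i
    split_ifs with h
    · exact exp_two _
    · obtain ⟨z, hz⟩ := (hA n hn).2.2 i
      obtain ⟨z0, hz0⟩ := (hA n0 hn0A).2.2 i
      have h1 := exp_dist (Δ i / D * (f n)) (Δ i * (Real.log n - Real.log n0))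
      have h2 := exp_near (Δ i * (Real.log n - Real.log n0)) (z - z0)
      have h3 : |Δ i * (Real.log n - Real.log n0) - 2 * Real.pi * ((z - z0 : ℤ) : ℝ)| ≤
          2 * (2 * Real.pi * 2 ^ b i / L i) := by
        have e : Δ i * (Real.log n - Real.log n0) - 2 * Real.pi * ((z - z0 : ℤ) : ℝ) =
            (Δ i * Real.log n - 2 * Real.pi * z) - (Δ i * Real.log n0 - 2 * Real.pi * z0) := by
          push_cast
          ring
        rw [e]
        refine (abs_sub _ _).trans ?_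
        linarith
      have h4 : |Δ i / D * (f n) - Δ i * (Real.log n - Real.log n0)| ≤ 2 / L i := by
        have e : Δ i / D * (f n) - Δ i * (Real.log n - Real.log n0) =
            Δ i / D * ((f n) - D * (Real.log n - Real.log n0)) := by
          have := hD0.ne'
          field_simp
        rw [e, abs_mul, abs_div, abs_of_pos hD0]
        calc |Δ i| / D * |(f n) - D * (Real.log n - Real.log n0)| ≤ |Δ i| / D * 1 :=
              mul_le_mul_of_nonneg_left (hfloor n) (by positivity)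
          _ ≤ 2 / L i := by rw [mul_one]; exact hΔ i h
      have e5 : (4 * Real.pi * 2 ^ b i + 2) / L i =
          2 * (2 * Real.pi * 2 ^ b i / L i) + 2 / L i := by ring
      rw [e5]
      linarith
  have hcard := near_card_real Δ V hV1 hD hsepV δ hδV M S hSM hSδ
  -- the fibres
  have hfib : A.card ≤ (1 + ⌊4 * X / D⌋₊) * S.card := by
    rw [hS]
    apply card_le_mul_card_image
    intro a _
    have e : A.filter (fun n => f n = a) =
        A.filter (fun n : ℕ => ⌊D * Real.log n⌋ = a + ⌊D * Real.log n0⌋) := by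
      apply filter_congr
      intro n _
      rw [hfn]
      constructor <;> intro h <;> omega
    rw [e]
    exact fiber_le hX hD A (fun n hn => ⟨(hA n hn).1, (hA n hn).2.1⟩) _
  have hfib' : (A.card : ℝ) ≤ (1 + 4 * X / D) * S.card := by
    have h1 : (A.card : ℝ) ≤ ((1 + ⌊4 * X / D⌋₊ : ℕ) : ℝ) * S.card := by exact_mod_cast hfib
    have h2 : ((⌊4 * X / D⌋₊ : ℕ) : ℝ) ≤ 4 * X / D := Nat.floor_le (by positivity)
    push_cast at h1
    refine h1.trans (mul_le_mul_of_nonneg_right (by linarith) (Nat.cast_nonneg _))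
  -- the product of the V
  have hPV : (∏ i, (L i : ℝ)) / (30 ^ k * 2 ^ (∑ i, b i)) ≤ ∏ i, (V i : ℝ) := by
    have e : (∏ i, (L i : ℝ)) / (30 ^ k * 2 ^ (∑ i, b i)) = ∏ i, ((L i : ℝ) / (30 * 2 ^ b i)) := by
      rw [prod_div_distrib, prod_mul_distrib, prod_const, card_univ, Fintype.card_fin,
        prod_pow_eq_pow_sum]
    rw [e]
    refine prod_le_prod (fun i _ => by positivity) fun i _ => ?_
    rw [div_le_iff₀ (by positivity), hVi]
    have h1 := Nat.div_add_mod (L i) (30 * 2 ^ b i)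
    have h2 := Nat.mod_lt (L i) (show 0 < 30 * 2 ^ b i by positivity)
    have h3 : L i ≤ (1 + L i / (30 * 2 ^ b i)) * (30 * 2 ^ b i) := by nlinarith
    have h4 : ((L i : ℕ) : ℝ) ≤ (((1 + L i / (30 * 2 ^ b i)) * (30 * 2 ^ b i) : ℕ) : ℝ) := by
      exact_mod_cast h3
    push_cast at h4 ⊢
    exact h4
  have hPV0 : 0 ≤ ∏ i, (V i : ℝ) := prod_nonneg fun i _ => Nat.cast_nonneg _
  have hfin : (A.card : ℝ) * ∏ i, (V i : ℝ) ≤ 60 * 4 ^ k * (1 + Real.log D) * (X + D) := by
    have h1 : (2 * (M : ℝ) + 1 + 8 * D * (1 + Real.log D)) ≤ 15 * D * (1 + Real.log D) := by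
      nlinarith
    calc (A.card : ℝ) * ∏ i, (V i : ℝ) ≤ ((1 + 4 * X / D) * S.card) * ∏ i, (V i : ℝ) :=
          mul_le_mul_of_nonneg_right hfib' hPV0
      _ = (1 + 4 * X / D) * (S.card * ∏ i, (V i : ℝ)) := by ring
      _ ≤ (1 + 4 * X / D) * (4 ^ k * (2 * M + 1 + 8 * D * (1 + Real.log D))) :=
          mul_le_mul_of_nonneg_left hcard (by positivity)
      _ ≤ (1 + 4 * X / D) * (4 ^ k * (15 * D * (1 + Real.log D))) :=
          mul_le_mul_of_nonneg_left (mul_le_mul_of_nonneg_left h1 (by positivity)) (by positivity)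
      _ = 15 * 4 ^ k * (1 + Real.log D) * (D + 4 * X) := by
          have := hD0.ne'
          field_simp
      _ ≤ 15 * 4 ^ k * (1 + Real.log D) * (4 * (X + D)) :=
          mul_le_mul_of_nonneg_left (by linarith) (by positivity)
      _ = _ := by ring
  rw [le_div_iff₀ hPL]
  have h6 : (A.card : ℝ) * ((∏ i, (L i : ℝ)) / (30 ^ k * 2 ^ (∑ i, b i))) ≤
      60 * 4 ^ k * (1 + Real.log D) * (X + D) :=
    (mul_le_mul_of_nonneg_left hPV (Nat.cast_nonneg _)).trans hfin
  have h7 : (0 : ℝ) < 30 ^ k * 2 ^ (∑ i, b i) := by positivity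
  rw [← mul_div_assoc, div_le_iff₀ h7] at h6
  refine h6.trans (le_of_eq ?_)
  have e : (120 : ℝ) ^ k = 4 ^ k * 30 ^ k := by rw [← mul_pow]; norm_num
  rw [e]
  ring

end Pool.Agent.Y154.R9
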