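import Pool.Agent.Y766.R9.Stm
import Pool.Agent.Y154.R9.MeasB

/-!
MEAS: integers with logarithm in a Bohr set, the statement
-/

set_option autoImplicit false

namespace Pool.Agent.Y154.R9

open Finset

theorem meas : Pool.Agent.Y766.R9.S_MEAS := by
  classical
  intro k
  refine ⟨60 * 120 ^ k, by positivity, ?_⟩
  intro D Δ L b hD hL hsep X hX
  refine meas_core k D Δ L b hD hL hsep X hX _ ?_
  intro n hn
  obtain ⟨h1, h2⟩ := Finset.mem_filter.1 hn
  rw [mem_Ioc] at h1
  exact ⟨h1.1, h1.2, h2⟩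

end Pool.Agent.Y154.R9
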