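import Pool.Agent.Y766.G4

/-!
MEAS: integers with logarithm in a Bohr set
-/

set_option autoImplicit false

namespace Pool.Agent.Y154.R9

open Finset Pool.Agent.Y766

lemma exp_near (x : ℝ) (z : ℤ) :
    ‖Complex.exp (Complex.I * (x : ℂ)) - 1‖ ≤ |x - 2 * Real.pi * z| := by
  have h1 := exp_dist x (2 * Real.pi * z)
  have h2 : Complex.exp (Complex.I * ((2 * Real.pi * z : ℝ) : ℂ)) = 1 := by
    rw [Complex.exp_eq_one_iff]
    exact ⟨z, by push_cast; ring⟩
  rw [h2, sub_self, norm_zero, zero_add] at h1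
  exact h1

lemma exp_two (x : ℝ) : ‖Complex.exp (Complex.I * (x : ℂ)) - 1‖ ≤ 2 := by
  refine (norm_sub_le _ _).trans ?_
  rw [mul_comm, Complex.norm_exp_ofReal_mul_I, norm_one]
  norm_num

/-- integers in a dyadic interval in one cell of the logarithmic grid -/
lemma fiber_le {X : ℕ} {D : ℝ} (hX : 1 ≤ X) (hD : 1 ≤ D) (A : Finset ℕ)
    (hA : ∀ n ∈ A, X < n ∧ n ≤ 2 * X) (a : ℤ) :
    (A.filter (fun n : ℕ => ⌊D * Real.log n⌋ = a)).card ≤ 1 + ⌊4 * X / D⌋₊ := by
  have hD0 : 0 < D := by linarith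
  rcases (A.filter (fun n : ℕ => ⌊D * Real.log n⌋ = a)).eq_empty_or_nonempty with he | hne
  · rw [he]; simp
  · obtain ⟨m, hm⟩ : ∃ m, m = (A.filter (fun n : ℕ => ⌊D * Real.log n⌋ = a)).min' hne := ⟨_, rfl⟩
    have hmA := (A.filter (fun n : ℕ => ⌊D * Real.log n⌋ = a)).min'_mem hne
    rw [← hm, mem_filter] at hmA
    obtain ⟨hmA, hma⟩ := hmA
    obtain ⟨hm1, hm2⟩ := hA m hmA
    have hm0 : (0 : ℝ) < m := by
      have : 0 < m := by omega
      exact_mod_cast this
    have hsub : A.filter (fun n : ℕ => ⌊D * Real.log n⌋ = a) ⊆ Icc m (m + ⌊4 * X / D⌋₊) := by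
      intro n hn
      have hmn : m ≤ n := by rw [hm]; exact min'_le _ _ hn
      rw [mem_filter] at hn
      obtain ⟨hnA, hna⟩ := hn
      obtain ⟨hn1, hn2⟩ := hA n hnA
      have hn0 : (0 : ℝ) < n := by
        have : 0 < n := by omega
        exact_mod_cast this
      have h1 := Int.floor_le (D * Real.log m)
      have h2 := Int.lt_floor_add_one (D * Real.log n)
      rw [hma] at h1
      rw [hna] at h2
      have h3 : Real.log n - Real.log m ≤ 1 / D := by
        rw [le_div_iff₀ hD0]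
        linarith
      have h4 : (n : ℝ) ≤ m * Real.exp (1 / D) := by
        have h5 : Real.log n ≤ Real.log m + 1 / D := by linarith
        have h6 := Real.exp_le_exp.2 h5
        rwa [Real.exp_add, Real.exp_log hn0, Real.exp_log hm0] at h6
      have h1D : 1 / D ≤ 1 := by
        rw [div_le_one hD0]; exact hD
      have h0D : 0 ≤ 1 / D := by positivity
      have h7 : Real.exp (1 / D) - 1 ≤ 2 * (1 / D) := by
        have h8 := Real.abs_exp_sub_one_le (x := 1 / D) (by rw [abs_of_nonneg h0D]; exact h1D)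
        rw [abs_of_nonneg h0D] at h8
        exact (le_abs_self _).trans h8
      have h9 : ((n - m : ℕ) : ℝ) ≤ 4 * X / D := by
        rw [Nat.cast_sub hmn]
        have hm3 : (m : ℝ) ≤ 2 * X := by exact_mod_cast hm2
        calc (n : ℝ) - m ≤ m * (Real.exp (1 / D) - 1) := by linarith
          _ ≤ m * (2 * (1 / D)) := mul_le_mul_of_nonneg_left h7 hm0.le
          _ ≤ (2 * X) * (2 * (1 / D)) := mul_le_mul_of_nonneg_right hm3 (by positivity)
          _ = 4 * X / D := by ring
      have h10 := Nat.le_floor h9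
      rw [mem_Icc]
      omega
    refine (card_le_card hsub).trans ?_
    rw [Nat.card_Icc]
    omega

end Pool.Agent.Y154.R9
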